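import Pool.Agent.Helper42.TN.GoalsT

/-!
# Project TN (MP_a41896_nt), packet TN-GLOBN: the global inequality on the hypersurfaces
-/

set_option autoImplicit false

open MvPolynomial

namespace Pool.Agent.Helper72.TN

open WeierstrassCurve Height Height.AdmissibleAbsValues
open Pool.Agent.Helper29.BL Pool.Agent.Helper92.Ru Pool.Agent.Helper42.SG
open Pool.Agent.Helper68.VN hiding xs Good nz
open Pool.Agent.Helper68.T3 (TayC gsup dlt)
open Pool.Agent.Helper19.PM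
open Pool.Agent.Helper42.TN

theorem logR6 {s B P1 P2 P3 P4 : ℝ} (hs : 0 < s) (hB : 0 < B) (h1 : 0 < P1) (h2 : 0 < P2)
    (h3 : 0 < P3) (h4 : 0 < P4) : Real.log (s * B * P1 * P2 * P3 * P4)
      = Real.log s + Real.log B + Real.log P1 + Real.log P2 + Real.log P3 + Real.log P4 := by
  rw [Real.log_mul (by positivity) h4.ne', Real.log_mul (by positivity) h3.ne',
    Real.log_mul (by positivity) h2.ne', Real.log_mul (by positivity) h1.ne',
    Real.log_mul hs.ne' hB.ne']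

theorem t_GLOBN (hHHO : HHO) (hCHW : CHW) : GLOBN := by
  intro K _ _ σ _ _ J _ w n M k0 E0 Bt B' hBt hB'
  have hBt0 : 0 ≤ PS (fun v => Real.log (Bt v)) :=
    PS_nonneg hBt.fin fun v => Real.log_nonneg (hBt.one_le v)
  have hB'0 : 0 ≤ PS (fun v => Real.log (B' v)) :=
    PS_nonneg hB'.fin fun v => Real.log_nonneg (hB'.one_le v)
  have hfr : (0 : ℝ) ≤ (Module.finrank ℚ K : ℝ) := Nat.cast_nonneg _
  have hE0 : (0 : ℝ) ≤ ((4 * M + 4 : ℕ) : ℝ) := Nat.cast_nonneg _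
  refine ⟨PS (fun v => Real.log (Bt v)) + PS (fun v => Real.log (B' v)) + Module.finrank ℚ K +
    ((4 * M + 4 : ℕ) : ℝ), by positivity, ?_⟩
  intro f G e ι _ c A ξ ψ x0 g a lo α dl hG hc hA hint hhs hdl hlo hFS hex hdlt hloc
  generalize hE : (4 * M + 4 : ℕ) = E at hloc hE0 ⊢
  -- the coefficients of `g j`
  have hg0 : ∀ j, g j ≠ 0 := by
    intro j hj
    apply hdlt j
    rw [hj]
    simp [dlt]
  have hgc : ∀ j, (fun s : (g j).support => coeff s.1 (g j)) ≠ 0 := by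
    intro j h
    obtain ⟨s, hs⟩ := MvPolynomial.ne_zero_iff.1 (hg0 j)
    exact hs (congrFun h ⟨s, MvPolynomial.mem_support_iff.2 hs⟩)
  have hgs : ∀ j, ∀ v : AbsoluteValue K ℝ, 0 < gsup v (g j) := fun j v => iSup_abv_pos v (hgc j)
  have fg : ∀ j, FS (fun v : AbsoluteValue K ℝ => Real.log (gsup v (g j))) :=
    fun j => FS_log_iSup (hgc j)
  have pg : ∀ j, PS (fun v : AbsoluteValue K ℝ => Real.log (gsup v (g j))) = Real.log (PH (g j)) :=
    fun j => PS_log_iSup (hgc j)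
  have fd : ∀ j, FS (fun v : AbsoluteValue K ℝ => Real.log (v (dlt (g j) a (ξ j) (ψ j)))) :=
    fun j => FS_log (hdlt j)
  have pd : ∀ j, PS (fun v : AbsoluteValue K ℝ => Real.log (v (dlt (g j) a (ξ j) (ψ j)))) = 0 :=
    fun j => PS_log (hdlt j)
  have gM : ∀ j, FS (fun v : AbsoluteValue K ℝ => ∑ i : σ, Real.log (Mv v (ξ j i))) :=
    fun j => FS.sum _ fun i _ => FS_log_Mv _
  have hrho : ∀ j, FS (fun v => Real.log (rhoW w (f j) v (ξ j))) :=
    fun j => (hCHW K σ J w (f j) (ξ j) (hex j)).1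
  have hrhoP : ∀ j, PS (fun v => Real.log (rhoW w (f j) v (ξ j))) = - cW w (f j) (ξ j) := by
    intro j
    unfold cW
    rw [PS_neg, neg_neg]
  have hrho0 : ∀ j v, 0 < rhoW w (f j) v (ξ j) :=
    fun j v => ((hCHW K σ J w (f j) (ξ j) (hex j)).2 v).1
  have hG0 : ∀ j, 0 ≤ PS (fun v => Real.log (G j v)) := fun j =>
    PS_nonneg (hG j).fin fun v => Real.log_nonneg ((hG j).one_le v)
  -- the summands
  have f0 : FS (fun v : AbsoluteValue K ℝ => Real.log (v dl)) := FS_log hdl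
  have g1 : FS (fun v : AbsoluteValue K ℝ => Real.log (⨆ i, v (c i))) := FS_log_iSup hc
  have g2a : FS (fun v : AbsoluteValue K ℝ => ((sqB e : ℕ) : ℝ) * Real.log (Bt v)) :=
    hBt.fin.const_mul _
  have g2c : ∀ j, FS (fun v : AbsoluteValue K ℝ => ((E : ℝ) * 4 ^ e j) * Real.log (G j v)) :=
    fun j => (hG j).fin.const_mul _
  have g2b : FS (fun v : AbsoluteValue K ℝ => ∑ j : Fin n,
      ((E : ℝ) * 4 ^ e j) * Real.log (G j v)) := FS.sum _ fun j _ => g2c j
  have g2 : FS (fun v : AbsoluteValue K ℝ => ((sqB e : ℕ) : ℝ) * Real.log (Bt v) +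
      ∑ j : Fin n, ((E : ℝ) * 4 ^ e j) * Real.log (G j v)) := g2a.add g2b
  have g3a : ∀ j i, FS (fun v : AbsoluteValue K ℝ =>
      (M : ℝ) * Real.log (max (v (lo j i).1) (v (lo j i).2)) +
        ((4 : ℝ) ^ e j + 2) * Real.log (Mv v (ξ j i))) :=
    fun j i => ((hFS j i).const_mul _).add ((FS_log_Mv _).const_mul _)
  have g3b : ∀ j, FS (fun v : AbsoluteValue K ℝ => ∑ i : σ,
      ((M : ℝ) * Real.log (max (v (lo j i).1) (v (lo j i).2)) +
        ((4 : ℝ) ^ e j + 2) * Real.log (Mv v (ξ j i)))) :=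
    fun j => FS.sum _ fun i _ => g3a j i
  have g3 : FS (fun v : AbsoluteValue K ℝ => ∑ j : Fin n, ∑ i : σ,
      ((M : ℝ) * Real.log (max (v (lo j i).1) (v (lo j i).2)) +
        ((4 : ℝ) ^ e j + 2) * Real.log (Mv v (ξ j i)))) :=
    FS.sum _ fun j _ => g3b j
  have g4a : ∀ j, FS (fun v : AbsoluteValue K ℝ =>
      ((k0 : ℝ) * 4 ^ e j) * Real.log (rhoW w (f j) v (ξ j))) := fun j => (hrho j).const_mul _
  have g4 : FS (fun v : AbsoluteValue K ℝ => ∑ j : Fin n,
      ((k0 : ℝ) * 4 ^ e j) * Real.log (rhoW w (f j) v (ξ j))) := FS.sum _ fun j _ => g4a j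
  have g5a : ∀ i, FS (fun v : AbsoluteValue K ℝ => Real.log (Mv v (x0 i))) :=
    fun i => FS_log_Mv _
  have g5 : FS (fun v : AbsoluteValue K ℝ => ∑ i : σ, Real.log (Mv v (x0 i))) :=
    FS.sum _ fun i _ => g5a i
  have g6b : ∀ h : Fin n × σ, FS (fun v : AbsoluteValue K ℝ =>
      (((Real.log (B' v) + 2 * Real.log (gsup v (g h.1))) +
        (E0 : ℝ) * ∑ i : σ, Real.log (Mv v (ξ h.1 i))) +
        (-2) * Real.log (v (dlt (g h.1) a (ξ h.1) (ψ h.1)))) +
        (-1) * Real.log (rhoW w (f h.1) v (ξ h.1))) :=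
    fun h => (((hB'.fin.add ((fg h.1).const_mul _)).add ((gM h.1).const_mul _)).add
      ((fd h.1).const_mul _)).add ((hrho h.1).const_mul _)
  have g6a : ∀ h : Fin n × σ, FS (fun v : AbsoluteValue K ℝ =>
      (α h : ℝ) * ((((Real.log (B' v) + 2 * Real.log (gsup v (g h.1))) +
        (E0 : ℝ) * ∑ i : σ, Real.log (Mv v (ξ h.1 i))) +
        (-2) * Real.log (v (dlt (g h.1) a (ξ h.1) (ψ h.1)))) +
        (-1) * Real.log (rhoW w (f h.1) v (ξ h.1)))) := fun h => (g6b h).const_mul _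
  have g6 : FS (fun v : AbsoluteValue K ℝ => ∑ h : Fin n × σ,
      (α h : ℝ) * ((((Real.log (B' v) + 2 * Real.log (gsup v (g h.1))) +
        (E0 : ℝ) * ∑ i : σ, Real.log (Mv v (ξ h.1 i))) +
        (-2) * Real.log (v (dlt (g h.1) a (ξ h.1) (ψ h.1)))) +
        (-1) * Real.log (rhoW w (f h.1) v (ξ h.1)))) := FS.sum _ fun h _ => g6a h
  have hmain : PS (fun v : AbsoluteValue K ℝ => Real.log (v dl)) ≤
      PS (fun v : AbsoluteValue K ℝ => ((((Real.log (⨆ i, v (c i)) +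
        (((sqB e : ℕ) : ℝ) * Real.log (Bt v) +
          ∑ j : Fin n, ((E : ℝ) * 4 ^ e j) * Real.log (G j v))) +
        ∑ j : Fin n, ∑ i : σ, ((M : ℝ) * Real.log (max (v (lo j i).1) (v (lo j i).2)) +
          ((4 : ℝ) ^ e j + 2) * Real.log (Mv v (ξ j i)))) +
        ∑ j : Fin n, ((k0 : ℝ) * 4 ^ e j) * Real.log (rhoW w (f j) v (ξ j))) +
        ∑ i : σ, Real.log (Mv v (x0 i))) +
        ∑ h : Fin n × σ, (α h : ℝ) * ((((Real.log (B' v) + 2 * Real.log (gsup v (g h.1))) +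
        (E0 : ℝ) * ∑ i : σ, Real.log (Mv v (ξ h.1 i))) +
        (-2) * Real.log (v (dlt (g h.1) a (ξ h.1) (ψ h.1)))) +
        (-1) * Real.log (rhoW w (f h.1) v (ξ h.1)))) := by
    refine PS_mono f0 (((((g1.add g2).add g3).add g4).add g5).add g6) ?_
    intro v
    have hvδ : 0 < v dl := v.pos hdl
    have hs : 0 < ⨆ i, v (c i) := iSup_abv_pos v hc
    have hB1 : 0 < Bt v := lt_of_lt_of_le one_pos (hBt.one_le v)
    have hB2 : 0 < B' v := lt_of_lt_of_le one_pos (hB'.one_le v)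
    have hG1 : ∀ j, 0 < G j v ^ (E * 4 ^ e j) := fun j =>
      pow_pos (lt_of_lt_of_le one_pos ((hG j).one_le v)) _
    have hGp : 0 < ∏ j, G j v ^ (E * 4 ^ e j) := Finset.prod_pos fun j _ => hG1 j
    have hmx : ∀ j i, 0 < max (v (lo j i).1) (v (lo j i).2) := by
      intro j i
      rcases hlo j i with k | k
      · exact lt_max_of_lt_left (v.pos k)
      · exact lt_max_of_lt_right (v.pos k)
    have hM : ∀ a : K, 0 < Mv v a := Mv_pos v
    have p1 : ∀ j i, 0 < (max (v (lo j i).1) (v (lo j i).2)) ^ M *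
        Mv v (ξ j i) ^ (4 ^ e j + 2) :=
      fun j i => mul_pos (pow_pos (hmx j i) _) (pow_pos (hM _) _)
    have p1' : ∀ j, 0 < ∏ i, (max (v (lo j i).1) (v (lo j i).2)) ^ M *
        Mv v (ξ j i) ^ (4 ^ e j + 2) := fun j => Finset.prod_pos fun i _ => p1 j i
    have p2 : ∀ j, 0 < rhoW w (f j) v (ξ j) ^ (k0 * 4 ^ e j) := fun j => pow_pos (hrho0 j v) _
    have p3 : ∀ i, 0 < Mv v (x0 i) := fun i => hM _
    have hvd : ∀ j, 0 < v (dlt (g j) a (ξ j) (ψ j)) := fun j => v.pos (hdlt j)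
    have hPM : ∀ j, 0 < ∏ i, Mv v (ξ j i) := fun j => Finset.prod_pos fun i _ => hM _
    have hrad : ∀ h : Fin n × σ, 1 / radN w f E0 g a (B' v) v ξ ψ h =
        B' v * gsup v (g h.1) ^ 2 * (∏ i, Mv v (ξ h.1 i)) ^ E0 /
          v (dlt (g h.1) a (ξ h.1) (ψ h.1)) ^ 2 / rhoW w (f h.1) v (ξ h.1) := by
      intro h
      unfold radN
      rw [one_div, mul_inv, inv_div, mul_comm, ← div_eq_mul_inv]
    have p4a : ∀ h : Fin n × σ, 0 < B' v * gsup v (g h.1) ^ 2 * (∏ i, Mv v (ξ h.1 i)) ^ E0 :=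
      fun h => mul_pos (mul_pos hB2 (pow_pos (hgs _ v) _)) (pow_pos (hPM _) _)
    have p4b : ∀ h : Fin n × σ, 0 < v (dlt (g h.1) a (ξ h.1) (ψ h.1)) ^ 2 :=
      fun h => pow_pos (hvd _) _
    have p4' : ∀ h : Fin n × σ, 0 < 1 / radN w f E0 g a (B' v) v ξ ψ h := by
      intro h
      rw [hrad h]
      exact div_pos (div_pos (p4a h) (p4b h)) (hrho0 _ v)
    have p4 : ∀ h : Fin n × σ, 0 < (1 / radN w f E0 g a (B' v) v ξ ψ h) ^ α h :=
      fun h => pow_pos (p4' h) _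
    have hle : ∀ i, v (c i) ≤ ⨆ i, v (c i) := fun i =>
      le_ciSup (Set.finite_range fun i => v (c i)).bddAbove i
    have h1 := Real.log_le_log hvδ (hloc v (⨆ i, v (c i)) hle)
    rw [logR6 hs (mul_pos (pow_pos hB1 _) hGp) (Finset.prod_pos fun j _ => p1' j)
      (Finset.prod_pos fun j _ => p2 j) (Finset.prod_pos fun i _ => p3 i)
      (Finset.prod_pos fun h _ => p4 h), Real.log_mul (pow_pos hB1 _).ne' hGp.ne',
      Real.log_prod (fun j _ => (hG1 j).ne'),
      Real.log_prod (fun j _ => (p1' j).ne'), Real.log_prod (fun j _ => (p2 j).ne'),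
      Real.log_prod (fun i _ => (p3 i).ne'), Real.log_prod (fun h _ => (p4 h).ne'),
      Real.log_pow] at h1
    have e0 : ∑ j : Fin n, Real.log (G j v ^ (E * 4 ^ e j))
        = ∑ j : Fin n, ((E : ℝ) * 4 ^ e j) * Real.log (G j v) := by
      refine Finset.sum_congr rfl fun j _ => ?_
      rw [Real.log_pow]
      push_cast
      ring
    have e1 : ∑ j : Fin n, Real.log (∏ i, (max (v (lo j i).1) (v (lo j i).2)) ^ M *
        Mv v (ξ j i) ^ (4 ^ e j + 2))
        = ∑ j : Fin n, ∑ i : σ, ((M : ℝ) * Real.log (max (v (lo j i).1) (v (lo j i).2)) +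
          ((4 : ℝ) ^ e j + 2) * Real.log (Mv v (ξ j i))) := by
      refine Finset.sum_congr rfl fun j _ => ?_
      rw [Real.log_prod (fun i _ => (p1 j i).ne')]
      refine Finset.sum_congr rfl fun i _ => ?_
      rw [Real.log_mul (pow_pos (hmx j i) _).ne' (pow_pos (hM _) _).ne', Real.log_pow,
        Real.log_pow]
      push_cast
      ring
    have e2 : ∑ j : Fin n, Real.log (rhoW w (f j) v (ξ j) ^ (k0 * 4 ^ e j))
        = ∑ j : Fin n, ((k0 : ℝ) * 4 ^ e j) * Real.log (rhoW w (f j) v (ξ j)) := by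
      refine Finset.sum_congr rfl fun j _ => ?_
      rw [Real.log_pow]
      push_cast
      ring
    have e4 : ∑ h : Fin n × σ, Real.log ((1 / radN w f E0 g a (B' v) v ξ ψ h) ^ α h)
        = ∑ h : Fin n × σ, (α h : ℝ) * ((((Real.log (B' v) + 2 * Real.log (gsup v (g h.1))) +
        (E0 : ℝ) * ∑ i : σ, Real.log (Mv v (ξ h.1 i))) +
        (-2) * Real.log (v (dlt (g h.1) a (ξ h.1) (ψ h.1)))) +
        (-1) * Real.log (rhoW w (f h.1) v (ξ h.1))) := by
      refine Finset.sum_congr rfl fun h _ => ?_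
      rw [Real.log_pow, hrad h, Real.log_div (div_pos (p4a h) (p4b h)).ne' (hrho0 h.1 v).ne',
        Real.log_div (p4a h).ne' (p4b h).ne',
        Real.log_mul (mul_pos hB2 (pow_pos (hgs _ v) _)).ne' (pow_pos (hPM _) _).ne',
        Real.log_mul hB2.ne' (pow_pos (hgs _ v) _).ne', Real.log_pow, Real.log_pow, Real.log_pow,
        Real.log_prod (fun i _ => (hM (ξ h.1 i)).ne')]
      push_cast
      ring
    rw [e0, e1, e2, e4] at h1
    exact h1
  rw [PS_log hdl, PS_add ((((g1.add g2).add g3).add g4).add g5) g6,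
    PS_add (((g1.add g2).add g3).add g4) g5, PS_add ((g1.add g2).add g3) g4,
    PS_add (g1.add g2) g3, PS_add g1 g2, PS_add g2a g2b, PS_const_mul, PS_log_iSup hc,
    PS_sum _ fun j _ => g2c j,
    PS_sum _ fun j _ => g3b j, PS_sum _ fun j _ => g4a j, PS_sum _ fun i _ => g5a i,
    PS_sum _ fun h _ => g6a h] at hmain
  have s2 : ∑ j : Fin n, PS (fun v : AbsoluteValue K ℝ => ((E : ℝ) * 4 ^ e j) *
      Real.log (G j v)) = E * ∑ j : Fin n, (4 : ℝ) ^ e j * PS (fun v => Real.log (G j v)) := by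
    rw [Finset.mul_sum]
    refine Finset.sum_congr rfl fun j _ => ?_
    rw [PS_const_mul]
    ring
  have s3 : ∑ j : Fin n, PS (fun v : AbsoluteValue K ℝ => ∑ i : σ,
      ((M : ℝ) * Real.log (max (v (lo j i).1) (v (lo j i).2)) +
        ((4 : ℝ) ^ e j + 2) * Real.log (Mv v (ξ j i))))
      = ∑ j : Fin n, ∑ i : σ,
        (M * PS (fun v => Real.log (max (v (lo j i).1) (v (lo j i).2))) +
          ((4 : ℝ) ^ e j + 2) * logHeight₁ (ξ j i)) := by
    refine Finset.sum_congr rfl fun j _ => ?_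
    rw [PS_sum _ fun i _ => g3a j i]
    refine Finset.sum_congr rfl fun i _ => ?_
    rw [PS_add ((hFS j i).const_mul _) ((FS_log_Mv _).const_mul _), PS_const_mul,
      PS_const_mul, PS_log_Mv]
  have s4 : ∑ j : Fin n, PS (fun v : AbsoluteValue K ℝ =>
      ((k0 : ℝ) * 4 ^ e j) * Real.log (rhoW w (f j) v (ξ j)))
      = - ∑ j : Fin n, (k0 : ℝ) * 4 ^ e j * cW w (f j) (ξ j) := by
    rw [← Finset.sum_neg_distrib]
    refine Finset.sum_congr rfl fun j _ => ?_
    rw [PS_const_mul, hrhoP]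
    ring
  have s5 : ∑ i : σ, PS (fun v : AbsoluteValue K ℝ => Real.log (Mv v (x0 i)))
      = ∑ i : σ, logHeight₁ (x0 i) :=
    Finset.sum_congr rfl fun i _ => PS_log_Mv _
  have s6 : ∑ h : Fin n × σ, PS (fun v : AbsoluteValue K ℝ =>
      (α h : ℝ) * ((((Real.log (B' v) + 2 * Real.log (gsup v (g h.1))) +
        (E0 : ℝ) * ∑ i : σ, Real.log (Mv v (ξ h.1 i))) +
        (-2) * Real.log (v (dlt (g h.1) a (ξ h.1) (ψ h.1)))) +
        (-1) * Real.log (rhoW w (f h.1) v (ξ h.1))))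
      ≤ ∑ h : Fin n × σ, (α h : ℝ) * ((PS (fun v => Real.log (Bt v)) +
        PS (fun v => Real.log (B' v)) + Module.finrank ℚ K + (E : ℝ)) +
        cW w (f h.1) (ξ h.1) + 2 * Real.log (PH (g h.1)) +
        E0 * ∑ i, logHeight₁ (ξ h.1 i)) := by
    refine Finset.sum_le_sum fun h _ => ?_
    have hsM : PS (fun v : AbsoluteValue K ℝ => ∑ i' : σ, Real.log (Mv v (ξ h.1 i')))
        = ∑ i', logHeight₁ (ξ h.1 i') := by
      rw [PS_sum _ fun i _ => FS_log_Mv (ξ h.1 i)]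
      exact Finset.sum_congr rfl fun i _ => PS_log_Mv _
    rw [PS_const_mul, PS_add (((hB'.fin.add ((fg h.1).const_mul _)).add
        ((gM h.1).const_mul _)).add ((fd h.1).const_mul _)) ((hrho h.1).const_mul _),
      PS_add ((hB'.fin.add ((fg h.1).const_mul _)).add ((gM h.1).const_mul _))
        ((fd h.1).const_mul _),
      PS_add (hB'.fin.add ((fg h.1).const_mul _)) ((gM h.1).const_mul _),
      PS_add hB'.fin ((fg h.1).const_mul _), PS_const_mul, PS_const_mul, PS_const_mul,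
      PS_const_mul, pg, pd, hsM, hrhoP]
    refine mul_le_mul_of_nonneg_left ?_ (Nat.cast_nonneg _)
    linarith
  rw [s2, s3, s4, s5] at hmain
  have hc1 : logHeight c ≤ Module.finrank ℚ K * A := hHHO K ι c A hc hA hint hhs
  have hsq : (0 : ℝ) ≤ ((sqB e : ℕ) : ℝ) := Nat.cast_nonneg _
  have hGs : 0 ≤ ∑ j : Fin n, (4 : ℝ) ^ e j * PS (fun v => Real.log (G j v)) :=
    Finset.sum_nonneg fun j _ => mul_nonneg (by positivity) (hG0 j)
  have t1 : (Module.finrank ℚ K : ℝ) * A + ((sqB e : ℕ) : ℝ) * PS (fun v => Real.log (Bt v)) +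
      E * ∑ j : Fin n, (4 : ℝ) ^ e j * PS (fun v => Real.log (G j v))
      ≤ (PS (fun v => Real.log (Bt v)) + PS (fun v => Real.log (B' v)) + Module.finrank ℚ K +
          (E : ℝ)) *
        (((sqB e : ℕ) : ℝ) + A +
          ∑ j : Fin n, (4 : ℝ) ^ e j * PS (fun v => Real.log (G j v))) := by
    generalize (∑ j : Fin n, (4 : ℝ) ^ e j * PS (fun v => Real.log (G j v))) = g at hGs ⊢
    nlinarith [mul_nonneg hBt0 hA, mul_nonneg hB'0 hsq, mul_nonneg hB'0 hA,
      mul_nonneg hfr hsq, mul_nonneg hBt0 hGs, mul_nonneg hB'0 hGs, mul_nonneg hfr hGs,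
      mul_nonneg hE0 hsq, mul_nonneg hE0 hA]
  linarith

end Pool.Agent.Helper72.TN
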