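import Pool.Agent.Helper92.TN.GoalsH

/-!
# Project TN (MP_a41896_nt), packet TN-DLOW: `4^e deg x(P) ≤ 2 deg x(2^e P - c)`
-/

set_option autoImplicit false

open MvPolynomial

namespace Pool.Agent.Helper72.TN.DLOW

open WeierstrassCurve
open Pool.Agent.Helper29.BL Pool.Agent.Helper92.Ru Pool.Agent.Helper42.SG
open Pool.Agent.Helper60.T3 (WL IP zd S_TORS S_SUBF)
open Pool.Agent.Helper92.TN

theorem ps_sq {F : Type} [Field F] {W : Affine F} (P : W.Point) (hP : P ≠ 0) :
    ps P ^ 2 = Bf W (xc P) := by
  rcases P with _ | ⟨x, y, hxy⟩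
  · exact absurd rfl hP
  · show (2 * y + W.a₁ * x + W.a₃) ^ 2 = Bf W x
    have h := (W.equation_iff x y).1 hxy.1
    unfold Bf
    rw [WeierstrassCurve.b₂, WeierstrassCurve.b₄, WeierstrassCurve.b₆]
    linear_combination 4 * h

/-- a positive degree gives algebraicity on both sides -/
theorem integ {k M : Type} [Field k] [Field M] [Algebra k M] {t f : M} (h : 0 < dg k t f) :
    IsIntegral (IntermediateField.adjoin k {f}) t ∧
      IsIntegral (IntermediateField.adjoin k {t}) f := by
  unfold dg at h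
  constructor
  · by_contra hn
    rw [minpoly.eq_zero hn] at h
    simp at h
  · by_contra hn
    rw [minpoly.eq_zero hn] at h
    simp at h

/-- multiplicativity -/
theorem mult (hDGR : DGR) (hDGF : DGF) {k Ω : Type} [Field k] [CharZero k] [Field Ω]
    [Algebra k Ω] {t x z : Ω} (ht : Transcendental k t) (hx : Transcendental k x)
    (hz : Transcendental k z) (hax : IsAlgebraic (IntermediateField.adjoin k {t}) x)
    (haz : IsAlgebraic (IntermediateField.adjoin k {t}) z) :
    dg k t z = dg k t x * dg k x z ∧ 0 < dg k t x ∧ 0 < dg k t z := by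
  have px : 0 < dg k t x := (hDGF k Ω t x ht).2.2.2 hax hx
  have pz : 0 < dg k t z := (hDGF k Ω t z ht).2.2.2 haz hz
  refine ⟨?_, px, pz⟩
  obtain ⟨F, hF⟩ : ∃ F : IntermediateField k Ω, F = IntermediateField.adjoin k {t, x, z} :=
    ⟨_, rfl⟩
  have mt : t ∈ F := hF ▸ IntermediateField.subset_adjoin k _ (by simp)
  have mx : x ∈ F := hF ▸ IntermediateField.subset_adjoin k _ (by simp)
  have mz : z ∈ F := hF ▸ IntermediateField.subset_adjoin k _ (by simp)
  have htr : ∀ a b : F, dg k (a : Ω) (b : Ω) = dg k a b := fun a b =>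
    hDGR.2 k F k Ω (RingEquiv.refl k) F.val.toRingHom (fun c => rfl) a b
  have ex := htr ⟨t, mt⟩ ⟨x, mx⟩
  have ez := htr ⟨t, mt⟩ ⟨z, mz⟩
  have exz := htr ⟨x, mx⟩ ⟨z, mz⟩
  simp only at ex ez exz
  have hT : Transcendental k (⟨t, mt⟩ : F) := by
    intro h
    exact ht (h.algHom F.val)
  have hX : Transcendental k (⟨x, mx⟩ : F) := by
    intro h
    exact hx (h.algHom F.val)
  have ix := (integ (k := k) (t := (⟨t, mt⟩ : F)) (f := ⟨x, mx⟩) (by rw [← ex]; exact px)).2
  have iz := (integ (k := k) (t := (⟨t, mt⟩ : F)) (f := ⟨z, mz⟩) (by rw [← ez]; exact pz)).2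
  have hgen : IntermediateField.adjoin k ({(⟨t, mt⟩ : F)} ∪ {⟨x, mx⟩, ⟨z, mz⟩}) = ⊤ := by
    apply IntermediateField.lift_injective
    rw [IntermediateField.lift_adjoin, IntermediateField.lift_top]
    refine Eq.trans ?_ hF.symm
    congr 1
    simp only [Set.image_union, Set.image_insert_eq, Set.image_singleton]
    rfl
  have hfd : FiniteDimensional (IntermediateField.adjoin k {(⟨t, mt⟩ : F)}) F := by
    have h1 : FiniteDimensional (IntermediateField.adjoin k {(⟨t, mt⟩ : F)})
        (IntermediateField.adjoin (IntermediateField.adjoin k {(⟨t, mt⟩ : F)})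
          ({⟨x, mx⟩, ⟨z, mz⟩} : Set F)) := by
      apply IntermediateField.finiteDimensional_adjoin
      intro y hy
      rcases hy with rfl | hy
      · exact ix
      · rw [Set.mem_singleton_iff] at hy
        rw [hy]
        exact iz
    have h2 : IntermediateField.adjoin (IntermediateField.adjoin k {(⟨t, mt⟩ : F)})
          ({⟨x, mx⟩, ⟨z, mz⟩} : Set F) = ⊤ := by
      have h3 := IntermediateField.adjoin_adjoin_left k ({(⟨t, mt⟩ : F)} : Set F)
        {⟨x, mx⟩, ⟨z, mz⟩}
      rw [hgen] at h3
      apply IntermediateField.restrictScalars_injective k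
      rw [h3]
      rfl
    rw [h2] at h1
    exact Module.Finite.equiv (IntermediateField.topEquiv (F := IntermediateField.adjoin k
      {(⟨t, mt⟩ : F)}) (E := F)).toLinearEquiv
  have n0 : (0 : ℝ) < Module.finrank (IntermediateField.adjoin k {(⟨t, mt⟩ : F)}) F := by
    exact_mod_cast Module.finrank_pos
  have d1 := hDGR.1 k F ⟨t, mt⟩ ⟨x, mx⟩ hT hfd
  have d2 := hDGR.1 k F ⟨t, mt⟩ ⟨z, mz⟩ hT hfd
  have n1 : 0 < Module.finrank (IntermediateField.adjoin k {(⟨x, mx⟩ : F)}) F := by
    have h : (0 : ℝ) < Module.finrank (IntermediateField.adjoin k {(⟨x, mx⟩ : F)}) F := by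
      rw [d1, ← ex]
      exact mul_pos px n0
    exact_mod_cast h
  have hfd' : FiniteDimensional (IntermediateField.adjoin k {(⟨x, mx⟩ : F)}) F :=
    Module.finite_of_finrank_pos n1
  have d3 := hDGR.1 k F ⟨x, mx⟩ ⟨z, mz⟩ hX hfd'
  rw [d2, d1, ← ex, ← ez, ← exz] at d3
  have : dg k t z * (Module.finrank (IntermediateField.adjoin k {(⟨t, mt⟩ : F)}) F : ℝ) =
      (dg k t x * dg k x z) *
        (Module.finrank (IntermediateField.adjoin k {(⟨t, mt⟩ : F)}) F : ℝ) := by
    rw [d3]
    ring
  exact mul_right_cancel₀ n0.ne' this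

/-- a polynomial in one variable as a polynomial in the first of two variables -/
theorem degOf {k : Type} [Field k] (p : Polynomial k) :
    degreeOf 1 (Polynomial.aeval (X 0 : MvPolynomial (Fin 2) k) p) = 0 := by
  rw [Polynomial.aeval_eq_sum_range]
  apply Nat.le_zero.1
  refine (degreeOf_sum_le _ _ _).trans (Finset.sup_le fun i _ => ?_)
  rw [MvPolynomial.smul_eq_C_mul]
  refine (degreeOf_C_mul_le _ _ _).trans ?_
  refine (degreeOf_pow_le _ _ _).trans ?_
  simp [degreeOf_X]

/-- clearing denominators in the minimal polynomial -/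
theorem degB {k Ω : Type} [Field k] [Field Ω] [Algebra k Ω] {z x : Ω}
    (hx : IsIntegral (IntermediateField.adjoin k {z}) x) :
    ∃ R : MvPolynomial (Fin 2) k, R ≠ 0 ∧ aeval ![z, x] R = 0 ∧
      degreeOf 1 R ≤ (minpoly (IntermediateField.adjoin k {z}) x).natDegree := by
  open scoped IntermediateField.algebraAdjoinAdjoin in
  have hq0 : IsLocalization.integerNormalization (nonZeroDivisors (Algebra.adjoin k {z}))
      (minpoly (IntermediateField.adjoin k {z}) x) ≠ 0 := by
    intro h
    exact minpoly.ne_zero hx ((IsFractionRing.integerNormalization_eq_zero_iff).1 h)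
  open scoped IntermediateField.algebraAdjoinAdjoin in
  have hq1 : Polynomial.aeval x
      (IsLocalization.integerNormalization (nonZeroDivisors (Algebra.adjoin k {z}))
      (minpoly (IntermediateField.adjoin k {z}) x)) = 0 :=
    IsLocalization.integerNormalization_aeval_eq_zero _ _ (minpoly.aeval _ _)
  open scoped IntermediateField.algebraAdjoinAdjoin in
  have hq2 := IsLocalization.integerNormalization_support
    (nonZeroDivisors (Algebra.adjoin k {z})) (minpoly (IntermediateField.adjoin k {z}) x)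
  open scoped IntermediateField.algebraAdjoinAdjoin in
  obtain ⟨q, hq⟩ : ∃ q, q = IsLocalization.integerNormalization
      (nonZeroDivisors (Algebra.adjoin k {z})) (minpoly (IntermediateField.adjoin k {z}) x) :=
    ⟨_, rfl⟩
  rw [← hq] at hq0 hq1 hq2
  have hd : q.natDegree ≤ (minpoly (IntermediateField.adjoin k {z}) x).natDegree := by
    apply Polynomial.le_natDegree_of_mem_supp
    exact hq2 (Polynomial.natDegree_mem_support_of_nonzero hq0)
  have hp : ∀ i, ∃ p : Polynomial k, Polynomial.aeval z p = ((q.coeff i : _) : Ω) := by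
    intro i
    have h : ((q.coeff i : _) : Ω) ∈ Algebra.adjoin k {z} := (q.coeff i).2
    generalize ((q.coeff i : _) : Ω) = c at h ⊢
    rw [Algebra.adjoin_singleton_eq_range_aeval] at h
    exact h
  choose p hp using hp
  refine ⟨∑ i ∈ Finset.range (q.natDegree + 1),
    Polynomial.aeval (X 0 : MvPolynomial (Fin 2) k) (p i) * X 1 ^ i, ?_, ?_, ?_⟩
  · intro h
    have h1 := congrArg (aeval ![Polynomial.C z, (Polynomial.X : Polynomial Ω)]) h
    have e : ∀ i, aeval ![Polynomial.C z, (Polynomial.X : Polynomial Ω)]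
        (Polynomial.aeval (X 0 : MvPolynomial (Fin 2) k) (p i)) =
          Polynomial.C ((q.coeff i : _) : Ω) := by
      intro i
      rw [← Polynomial.aeval_algHom_apply, aeval_X, Matrix.cons_val_zero, ← hp i]
      exact Polynomial.aeval_algebraMap_apply (Polynomial Ω) z (p i)
    simp only [map_sum, map_mul, map_pow, map_zero, aeval_X, Matrix.cons_val_one, e] at h1
    have h2 := congrArg (fun f => Polynomial.coeff f q.natDegree) h1
    simp only [Polynomial.finsetSum_coeff, Matrix.cons_val_fin_one,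
      Polynomial.coeff_C_mul_X_pow, Polynomial.coeff_zero] at h2
    rw [Finset.sum_ite_eq] at h2
    simp at h2
    exact hq0 h2
  · have e : ∀ i, aeval ![z, x] (Polynomial.aeval (X 0 : MvPolynomial (Fin 2) k) (p i)) =
          ((q.coeff i : _) : Ω) := by
      intro i
      rw [← Polynomial.aeval_algHom_apply, aeval_X, Matrix.cons_val_zero, ← hp i]
    rw [Polynomial.aeval_eq_sum_range] at hq1
    rw [map_sum, ← hq1]
    refine Finset.sum_congr rfl fun i _ => ?_
    rw [map_mul, map_pow, aeval_X, e i]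
    rfl
  · refine (degreeOf_sum_le _ _ _).trans (Finset.sup_le fun i hi => ?_)
    refine (degreeOf_mul_le _ _ _).trans ?_
    rw [degOf, zero_add]
    refine (degreeOf_pow_le _ _ _).trans ?_
    rw [degreeOf_X, if_pos rfl, mul_one]
    exact (Nat.lt_succ_iff.1 (Finset.mem_range.1 hi)).trans hd

/-- an element of `k(x, ψ)`, `ψ² ∈ k(x)`, has degree at most two over `k(x)` -/
theorem degA {k Ω : Type} [Field k] [Field Ω] [Algebra k Ω] {x ψ z b : Ω}
    (hb : b ∈ IntermediateField.adjoin k {x}) (hψ : ψ ^ 2 = b)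
    (hz : z ∈ IntermediateField.adjoin k {x, ψ}) :
    (minpoly (IntermediateField.adjoin k {x}) z).natDegree ≤ 2 := by
  have hroot : Polynomial.aeval ψ (Polynomial.X ^ 2 - Polynomial.C
      (⟨b, hb⟩ : IntermediateField.adjoin k {x})) = 0 := by
    simp only [map_sub, map_pow, Polynomial.aeval_X, Polynomial.aeval_C, hψ]
    exact sub_self _
  have hmon : (Polynomial.X ^ 2 - Polynomial.C
      (⟨b, hb⟩ : IntermediateField.adjoin k {x})).Monic :=
    Polynomial.monic_X_pow_sub_C _ two_ne_zero
  have hi : IsIntegral (IntermediateField.adjoin k {x}) ψ := ⟨_, hmon, hroot⟩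
  have hdeg : (minpoly (IntermediateField.adjoin k {x}) ψ).natDegree ≤ 2 := by
    refine (Polynomial.natDegree_le_of_dvd (minpoly.dvd _ _ hroot) hmon.ne_zero).trans ?_
    rw [Polynomial.natDegree_X_pow_sub_C]
  have hz' : z ∈ IntermediateField.adjoin (IntermediateField.adjoin k {x}) {ψ} := by
    have h := IntermediateField.adjoin_adjoin_left k ({x} : Set Ω) {ψ}
    have h2 : z ∈ (IntermediateField.adjoin (IntermediateField.adjoin k {x})
        {ψ}).restrictScalars k := by
      rw [h, Set.singleton_union]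
      exact hz
    exact h2
  have hfd := IntermediateField.adjoin.finiteDimensional hi
  have h3 := minpoly.natDegree_le (A := IntermediateField.adjoin k {x})
    (⟨z, hz'⟩ : IntermediateField.adjoin (IntermediateField.adjoin k {x}) {ψ})
  rw [IntermediateField.adjoin.finrank hi] at h3
  have h4 : minpoly (IntermediateField.adjoin k {x})
      (⟨z, hz'⟩ : IntermediateField.adjoin (IntermediateField.adjoin k {x}) {ψ}) =
      minpoly (IntermediateField.adjoin k {x}) z := by
    exact IntermediateField.minpoly_eq _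
  rw [h4] at h3
  exact h3.trans hdeg

theorem t (hDGR : DGR) (hDGF : DGF) (hTORS : S_TORS) (hSUBF : S_SUBF) : DLOW := by
  intro K Ω _ _ _ _ _ _ W _ k t hk ht hall P c e hc
  have hz0 := (hDGF k Ω t (xc ((2 ^ e) • P - c)) ht).1
  by_cases hx : IsAlgebraic k (xc P)
  · rw [(hDGF k Ω t (xc P) ht).2.1 hx]
    linarith
  have hP : P ≠ 0 := by
    rintro rfl
    exact hx (by rw [xc_zero]; exact isAlgebraic_zero)
  have hc' : IP (Set.range (algebraMap k Ω)) c := by
    rcases hc with h | ⟨h1, h2⟩
    · exact Or.inl h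
    · exact Or.inr ⟨⟨⟨_, h1⟩, rfl⟩, ⟨⟨_, h2⟩, rfl⟩⟩
  have hT := hTORS K k Ω W e P c hP hx hc'
  have hz : Transcendental k (xc ((2 ^ e) • P - c)) := by
    rintro ⟨p, hp0, hp⟩
    have h := hT (Polynomial.aeval (X 0 : MvPolynomial (Fin 2) k) p) (by
      intro h
      apply hp0
      have h1 := congrArg (aeval ![(Polynomial.X : Polynomial k), 0]) h
      rw [← Polynomial.aeval_algHom_apply, aeval_X, Matrix.cons_val_zero, map_zero,
        Polynomial.aeval_X_left_apply] at h1
      exact h1) (by
      rw [← Polynomial.aeval_algHom_apply, aeval_X, Matrix.cons_val_zero]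
      exact hp)
    rw [degOf] at h
    have : 0 < 4 ^ e := by positivity
    omega
  obtain ⟨hm, hpx, hpz⟩ := mult hDGR hDGF ht hx hz (hall _) (hall _)
  have hpxz : 0 < dg k (xc P) (xc ((2 ^ e) • P - c)) := by
    rw [hm] at hpz
    exact (mul_pos_iff_of_pos_left hpx).1 hpz
  obtain ⟨i1, i2⟩ := integ hpxz
  obtain ⟨R, hR0, hR1, hR2⟩ := degB i1
  have hA := (hT R hR0 hR1).trans hR2
  have hB : (minpoly (IntermediateField.adjoin k {xc P}) (xc ((2 ^ e) • P - c))).natDegree ≤
      2 := by
    have hle : ∀ w : Ω, w ∈ k → ∀ S : Set Ω, w ∈ IntermediateField.adjoin k S := fun w hw S =>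
      (IntermediateField.adjoin k S).algebraMap_mem ⟨w, hw⟩
    have hKmem : ∀ w : K, algebraMap K Ω w ∈ k := fun w => k.algebraMap_mem w
    have hb : Bf (WL Ω W) (xc P) ∈ IntermediateField.adjoin k {xc P} := by
      have hxm : xc P ∈ IntermediateField.adjoin k {xc P} :=
        IntermediateField.mem_adjoin_simple_self k _
      unfold Bf
      have e2 : (WL Ω W).b₂ ∈ IntermediateField.adjoin k {xc P} := by
        rw [WeierstrassCurve.map_b₂]
        exact hle _ (hKmem _) _
      have e4 : (WL Ω W).b₄ ∈ IntermediateField.adjoin k {xc P} := by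
        rw [WeierstrassCurve.map_b₄]
        exact hle _ (hKmem _) _
      have e6 : (WL Ω W).b₆ ∈ IntermediateField.adjoin k {xc P} := by
        rw [WeierstrassCurve.map_b₆]
        exact hle _ (hKmem _) _
      have n4 : (4 : Ω) ∈ IntermediateField.adjoin k {xc P} :=
        ofNat_mem (IntermediateField.adjoin k {xc P}) 4
      have n2 : (2 : Ω) ∈ IntermediateField.adjoin k {xc P} :=
        ofNat_mem (IntermediateField.adjoin k {xc P}) 2
      exact add_mem (add_mem (add_mem (mul_mem n4 (pow_mem hxm 3)) (mul_mem e2 (pow_mem hxm 2)))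
        (mul_mem (mul_mem n2 e4) hxm)) e6
    refine degA hb (ps_sq P hP) ?_
    -- the field `k(x, ψ)` over `K`
    have hIP : IP (((IntermediateField.adjoin k {xc P, ps P}).restrictScalars K :
        IntermediateField K Ω) : Set Ω) P := by
      refine Or.inr ⟨?_, ?_⟩
      · exact IntermediateField.subset_adjoin k _ (by simp)
      · exact IntermediateField.subset_adjoin k _ (by simp)
    have hIc : IP (((IntermediateField.adjoin k {xc P, ps P}).restrictScalars K :
        IntermediateField K Ω) : Set Ω) c := by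
      rcases hc with h | ⟨h1, h2⟩
      · exact Or.inl h
      · exact Or.inr ⟨hle _ h1 _, hle _ h2 _⟩
    have h1 := ((hSUBF K Ω W _ P P hIP hIP).2.2.2 (2 ^ e))
    have h2 := (hSUBF K Ω W _ _ c h1 hIc).2.1
    rcases h2 with h | ⟨h, -⟩
    · rw [h, xc_zero]
      exact zero_mem _
    · exact h
  have hB0 : 0 < (minpoly (IntermediateField.adjoin k {xc P})
      (xc ((2 ^ e) • P - c))).natDegree := minpoly.natDegree_pos i2
  have hmain : (4 : ℝ) ^ e ≤ 2 * dg k (xc P) (xc ((2 ^ e) • P - c)) := by
    unfold dg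
    have a1 : ((4 ^ e : ℕ) : ℝ) ≤ ((minpoly (IntermediateField.adjoin k
      {xc ((2 ^ e) • P - c)}) (xc P)).natDegree : ℝ) := by exact_mod_cast hA
    have a2 : ((minpoly (IntermediateField.adjoin k {xc P})
      (xc ((2 ^ e) • P - c))).natDegree : ℝ) ≤ 2 := by exact_mod_cast hB
    have a3 : (0 : ℝ) < ((minpoly (IntermediateField.adjoin k {xc P})
      (xc ((2 ^ e) • P - c))).natDegree : ℝ) := by exact_mod_cast hB0
    rw [← mul_div_assoc, le_div_iff₀ a3]
    push_cast at a1
    have a4 : (0 : ℝ) ≤ 4 ^ e := by positivity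
    nlinarith
  rw [hm]
  nlinarith

end Pool.Agent.Helper72.TN.DLOW
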